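import Pool.Agent.H71.NU.Stmts

/-!
# NU, module BER: the Bernoulli measure
-/

namespace NU

open MeasureTheory MS ProbabilityTheory

/-- uniform measure on the labels -/
noncomputable def BER_u : Measure Q := (131072 : ENNReal)⁻¹ • Measure.count

theorem BER_u_lint (h : Q → ENNReal) : ∫⁻ a, h a ∂BER_u = (∑ a, h a) / 131072 := by
  unfold BER_u
  rw [lintegral_smul_measure, lintegral_count, tsum_fintype, smul_eq_mul, mul_comm,
    ENNReal.div_eq_inv_mul, mul_comm]

instance BER_u_prob : IsProbabilityMeasure BER_u := by
  constructor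
  have h := BER_u_lint (fun _ => 1)
  rw [lintegral_one] at h
  rw [h]
  rw [Finset.sum_const, Finset.card_univ, Fintype.card_fin]
  rw [nsmul_eq_mul, mul_one]
  exact ENNReal.div_self (by norm_num) (by norm_num)

/-- fibres over the first letter -/
def BER_k : Option L → Type
  | none => Unit
  | some _ => List L

/-- lists by first letter -/
def BER_e : (Σ i : Option L, BER_k i) ≃ List L where
  toFun p := match p with
    | ⟨none, _⟩ => []
    | ⟨some s, l⟩ => s :: (l : List L)
  invFun l := match l with
    | [] => ⟨none, ()⟩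
    | s :: l => ⟨some s, l⟩
  left_inv p := by
    rcases p with ⟨_ | s, l⟩
    · rfl
    · rfl
  right_inv l := by
    cases l with
    | nil => rfl
    | cons s l => rfl

/-- the Bernoulli measure -/
noncomputable def BER_m : Measure Om := Measure.infinitePi (fun _ : List L => BER_u)

instance BER_m_prob : IsProbabilityMeasure BER_m := by
  unfold BER_m
  infer_instance

/-- the product of the blocks -/
noncomputable def BER_big : Measure ((i : Option L) → (BER_k i → Q)) :=
  Measure.infinitePi (fun i : Option L => Measure.infinitePi (fun _ : BER_k i => BER_u))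

theorem BER_map : ((BER_big.map (MeasurableEquiv.piCurry (fun (i : Option L) (_ : BER_k i) => Q)).symm).map
    (MeasurableEquiv.piCongrLeft (fun _ : List L => Q) BER_e)) = BER_m := by
  unfold BER_big BER_m
  rw [Measure.infinitePi_map_piCurry_symm (fun (i : Option L) (_ : BER_k i) => BER_u)]
  exact Measure.infinitePi_map_piCongrLeft (fun _ : List L => BER_u) BER_e

/-- the block form of the integrand -/
noncomputable def BER_X (h : Q → ENNReal) (k : L → Om → ENNReal) :
    (i : Option L) → (BER_k i → Q) → ENNReal
  | none => fun v => h (v ())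
  | some s => fun v => k s v

theorem BER_X_meas (h : Q → ENNReal) (k : L → Om → ENNReal) (hk : ∀ s, Measurable (k s)) :
    ∀ i, Measurable (BER_X h k i) := by
  intro i
  cases i with
  | none =>
    have h1 : Measurable h := measurable_of_finite h
    exact h1.comp (measurable_pi_apply (X := fun _ : BER_k none => Q) ())
  | some s => exact hk s

theorem BER_ind (h : Q → ENNReal) (k : L → Om → ENNReal) (hk : ∀ s, Measurable (k s)) :
    ∫⁻ ω, h (ω []) * ∏ s, k s (fun l => ω (s :: l)) ∂BER_m =
      ((∑ a, h a) / 131072) * ∏ s, ∫⁻ ω, k s ω ∂BER_m := by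
  conv_lhs => rw [← BER_map]
  rw [lintegral_map_equiv, lintegral_map_equiv]
  have hX : ∀ w : ((i : Option L) → (BER_k i → Q)),
      (fun ω : Om => h (ω []) * ∏ s, k s (fun l => ω (s :: l)))
        ((MeasurableEquiv.piCongrLeft (fun _ : List L => Q) BER_e)
          ((MeasurableEquiv.piCurry (fun (i : Option L) (_ : BER_k i) => Q)).symm w)) =
      ∏ i : Option L, BER_X h k i (w i) := by
    intro w
    rw [Fintype.prod_option]
    have h0 : ∀ (i : Option L) (j : BER_k i),
        ((MeasurableEquiv.piCongrLeft (fun _ : List L => Q) BER_e)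
          ((MeasurableEquiv.piCurry (fun (i : Option L) (_ : BER_k i) => Q)).symm w))
          (BER_e ⟨i, j⟩) = w i j := by
      intro i j
      have := Equiv.piCongrLeft_apply_apply (fun _ : List L => Q) BER_e
        ((MeasurableEquiv.piCurry (fun (i : Option L) (_ : BER_k i) => Q)).symm w) ⟨i, j⟩
      exact this
    have h1 := h0 none ()
    have h2 : ∀ s : L, (fun l : List L => ((MeasurableEquiv.piCongrLeft (fun _ : List L => Q) BER_e)
          ((MeasurableEquiv.piCurry (fun (i : Option L) (_ : BER_k i) => Q)).symm w))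
          (s :: l)) = w (some s) := by
      intro s
      funext l
      exact h0 (some s) l
    show h (((MeasurableEquiv.piCongrLeft (fun _ : List L => Q) BER_e)
          ((MeasurableEquiv.piCurry (fun (i : Option L) (_ : BER_k i) => Q)).symm w)) []) *
        ∏ s, k s (fun l => ((MeasurableEquiv.piCongrLeft (fun _ : List L => Q) BER_e)
          ((MeasurableEquiv.piCurry (fun (i : Option L) (_ : BER_k i) => Q)).symm w)) (s :: l)) = _
    have h1' : ((MeasurableEquiv.piCongrLeft (fun _ : List L => Q) BER_e)
          ((MeasurableEquiv.piCurry (fun (i : Option L) (_ : BER_k i) => Q)).symm w)) [] =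
        w none () := h1
    rw [h1']
    congr 1
  rw [lintegral_congr hX]
  have hi := iIndepFun_infinitePi
    (P := fun i : Option L => Measure.infinitePi (fun _ : BER_k i => BER_u))
    (X := BER_X h k) (BER_X_meas h k hk)
  have h3 := lintegral_prod_eq_prod_lintegral_of_indepFun Finset.univ _ hi
    (fun i => (BER_X_meas h k hk i).comp (measurable_pi_apply i))
  have h4 : ∀ i : Option L, ∫⁻ w, BER_X h k i (w i) ∂BER_big =
      ∫⁻ v, BER_X h k i v ∂(Measure.infinitePi (fun _ : BER_k i => BER_u)) := by
    intro i
    exact (measurePreserving_eval_infinitePi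
      (fun i : Option L => Measure.infinitePi (fun _ : BER_k i => BER_u)) i).lintegral_comp
      (BER_X_meas h k hk i)
  have h5 : ∫⁻ w, ∏ i : Option L, BER_X h k i (w i) ∂BER_big =
      ∏ i : Option L, ∫⁻ w, BER_X h k i (w i) ∂BER_big := h3
  have h8 : ∏ i : Option L, ∫⁻ w, BER_X h k i (w i) ∂BER_big =
      (∫⁻ w, BER_X h k none (w none) ∂BER_big) *
        ∏ s : L, ∫⁻ w, BER_X h k (some s) (w (some s)) ∂BER_big := Fintype.prod_option _
  have h9 : ∫⁻ w, BER_X h k none (w none) ∂BER_big = (∑ a, h a) / 131072 := by
    rw [h4 none]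
    have h6 := (measurePreserving_eval_infinitePi (fun _ : BER_k none => BER_u)
      ()).lintegral_comp (measurable_of_finite h)
    have h7 : ∫⁻ v, BER_X h k none v ∂(Measure.infinitePi (fun _ : BER_k none => BER_u)) =
        ∫⁻ a, h a ∂BER_u := h6
    rw [h7, BER_u_lint]
  have h10 : ∏ s : L, ∫⁻ w, BER_X h k (some s) (w (some s)) ∂BER_big =
      ∏ s, ∫⁻ ω, k s ω ∂BER_m := by
    refine Finset.prod_congr rfl (fun s _ => ?_)
    rw [h4 (some s)]
    rfl
  rw [← h9, ← h10, ← h8, ← h5]

theorem sBer (hT : STog) : SBer := by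
  refine ⟨BER_m, BER_m_prob, ?_, BER_ind⟩
  intro s
  refine ⟨hT.2.2.1 s, ?_⟩
  exact Measure.map_infinitePi_infinitePi_of_inj (P := fun _ : List L => BER_u)
    (hT.1 s).injective

end NU
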