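import Pool.Agent.H71.NU.Stmts

/-!
# NU, module PTH: many good paths with a probability which is not too small
-/

namespace NU

open MeasureTheory MS
open scoped Classical

section PTH

variable {Ω : Type} [MeasurableSpace Ω] (t : L → Ω → Ω) (K : Set Ω)

theorem PTH_meas (ht : ∀ s, Measurable (t s)) (hK : MeasurableSet K) :
    ∀ n, Measurable (Np t K n) := by
  intro n
  induction n with
  | zero =>
    have h : Measurable (fun ω => if ω ∈ K then 1 else 0 : Ω → ℕ) :=
      Measurable.ite hK measurable_const measurable_const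
    exact h
  | succ n ih =>
    have h : Measurable (fun ω => if ω ∈ K then ∑ s, Np t K n (t s ω) else 0 : Ω → ℕ) :=
      Measurable.ite hK (Finset.measurable_sum _ (fun s _ => ih.comp (ht s))) measurable_const
    exact h

theorem PTH_bound : ∀ n ω, Np t K n ω ≤ 16 ^ n := by
  intro n
  induction n with
  | zero =>
    intro ω
    unfold Np
    split_ifs <;> simp
  | succ n ih =>
    intro ω
    unfold Np
    split_ifs
    · calc ∑ s, Np t K n (t s ω) ≤ ∑ _s : L, 16 ^ n := Finset.sum_le_sum (fun s _ => ih _)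
        _ = 16 ^ (n + 1) := by
          rw [Finset.sum_const, Finset.card_univ, Fintype.card_fin, smul_eq_mul, pow_succ,
            mul_comm]
    · exact Nat.zero_le _

/-- real version -/
noncomputable def PTH_R (n : ℕ) (ω : Ω) : ℝ := (Np t K n ω : ℝ)

theorem PTH_R_meas (ht : ∀ s, Measurable (t s)) (hK : MeasurableSet K) (n : ℕ) :
    Measurable (PTH_R t K n) :=
  (measurable_of_countable (fun m : ℕ => (m : ℝ))).comp (PTH_meas t K ht hK n)

theorem PTH_R_nonneg (n : ℕ) (ω : Ω) : 0 ≤ PTH_R t K n ω := Nat.cast_nonneg _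

theorem PTH_R_le (n : ℕ) (ω : Ω) : PTH_R t K n ω ≤ 16 ^ n := by
  unfold PTH_R
  exact_mod_cast PTH_bound t K n ω

theorem PTH_R_succ_mul (m n : ℕ) (ω : Ω) :
    PTH_R t K (m + 1) ω * PTH_R t K n ω = ∑ s, PTH_R t K m (t s ω) * PTH_R t K n ω := by
  by_cases h : ω ∈ K
  · have h1 : PTH_R t K (m + 1) ω = ∑ s, PTH_R t K m (t s ω) := by
      unfold PTH_R
      rw [← Nat.cast_sum]
      congr 1
      show (if ω ∈ K then ∑ s, Np t K m (t s ω) else 0) = _
      rw [if_pos h]
    rw [h1, Finset.sum_mul]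
  · have h1 : PTH_R t K n ω = 0 := by
      unfold PTH_R
      cases n with
      | zero =>
        show (((if ω ∈ K then 1 else 0 : ℕ)) : ℝ) = 0
        rw [if_neg h]
        simp
      | succ n =>
        show (((if ω ∈ K then ∑ s, Np t K n (t s ω) else 0 : ℕ)) : ℝ) = 0
        rw [if_neg h]
        simp
    rw [h1]
    simp

variable (μ : Measure Ω) [IsProbabilityMeasure μ]

theorem PTH_int {f : Ω → ℝ} (hf : Measurable f) (C : ℝ) (h : ∀ ω, |f ω| ≤ C) :
    Integrable f μ :=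
  Integrable.of_bound hf.aestronglyMeasurable C (Filter.Eventually.of_forall h)

theorem PTH_int_mul (ht : ∀ s, Measurable (t s)) (hK : MeasurableSet K) (m n : ℕ)
    (f g : Ω → Ω) (hf : Measurable f) (hg : Measurable g) :
    Integrable (fun ω => PTH_R t K m (f ω) * PTH_R t K n (g ω)) μ := by
  refine PTH_int μ (((PTH_R_meas t K ht hK m).comp hf).mul ((PTH_R_meas t K ht hK n).comp hg))
    (16 ^ m * 16 ^ n) (fun ω => ?_)
  rw [abs_of_nonneg (mul_nonneg (PTH_R_nonneg t K m _) (PTH_R_nonneg t K n _))]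
  exact mul_le_mul (PTH_R_le t K m _) (PTH_R_le t K n _) (PTH_R_nonneg t K n _) (by positivity)

theorem PTH_shift (hi : ∀ s, Function.Involutive (t s)) (hp : ∀ s, MeasurePreserving (t s) μ μ)
    (hK : MeasurableSet K) (m n : ℕ) :
    ∫ ω, PTH_R t K (m + 1) ω * PTH_R t K n ω ∂μ =
      ∫ ω, PTH_R t K m ω * PTH_R t K (n + 1) ω ∂μ := by
  have ht : ∀ s, Measurable (t s) := fun s => (hp s).measurable
  have h1 : ∀ ω, PTH_R t K (m + 1) ω * PTH_R t K n ω =
      ∑ s, PTH_R t K m (t s ω) * PTH_R t K n ω := PTH_R_succ_mul t K m n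
  have h2 : ∀ ω, PTH_R t K m ω * PTH_R t K (n + 1) ω =
      ∑ s, PTH_R t K m ω * PTH_R t K n (t s ω) := by
    intro ω
    rw [mul_comm, PTH_R_succ_mul t K n m]
    exact Finset.sum_congr rfl (fun s _ => mul_comm _ _)
  simp_rw [h1, h2]
  have hi1 : ∀ s, Integrable (fun ω => PTH_R t K m (t s ω) * PTH_R t K n ω) μ :=
    fun s => PTH_int_mul t K μ ht hK m n (t s) id (ht s) measurable_id
  have hi2 : ∀ s, Integrable (fun ω => PTH_R t K m ω * PTH_R t K n (t s ω)) μ :=
    fun s => PTH_int_mul t K μ ht hK m n id (t s) measurable_id (ht s)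
  rw [integral_finsetSum _ (fun s _ => hi1 s), integral_finsetSum _ (fun s _ => hi2 s)]
  refine Finset.sum_congr rfl (fun s _ => ?_)
  have h3 : ∫ ω, PTH_R t K m ω * PTH_R t K n (t s ω) ∂μ =
      ∫ ω, PTH_R t K m (t s ω) * PTH_R t K n (t s (t s ω)) ∂μ := by
    conv_lhs => rw [← (hp s).map_eq]
    rw [integral_map (ht s).aemeasurable]
    exact ((PTH_R_meas t K ht hK m).mul
      ((PTH_R_meas t K ht hK n).comp (ht s))).aestronglyMeasurable
  rw [h3]
  refine integral_congr_ae (Filter.Eventually.of_forall (fun ω => ?_))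
  show PTH_R t K m (t s ω) * PTH_R t K n ω = PTH_R t K m (t s ω) * PTH_R t K n (t s (t s ω))
  rw [hi s ω]

theorem PTH_zero_mul (n : ℕ) (ω : Ω) : PTH_R t K 0 ω * PTH_R t K n ω = PTH_R t K n ω := by
  by_cases h : ω ∈ K
  · have h1 : PTH_R t K 0 ω = 1 := by
      unfold PTH_R
      show (((if ω ∈ K then 1 else 0 : ℕ)) : ℝ) = 1
      rw [if_pos h]
      simp
    rw [h1, one_mul]
  · have h1 : PTH_R t K n ω = 0 := by
      unfold PTH_R
      cases n with
      | zero =>
        show (((if ω ∈ K then 1 else 0 : ℕ)) : ℝ) = 0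
        rw [if_neg h]
        simp
      | succ n =>
        show (((if ω ∈ K then ∑ s, Np t K n (t s ω) else 0 : ℕ)) : ℝ) = 0
        rw [if_neg h]
        simp
    rw [h1]
    simp

theorem PTH_mul (hi : ∀ s, Function.Involutive (t s)) (hp : ∀ s, MeasurePreserving (t s) μ μ)
    (hK : MeasurableSet K) : ∀ m n : ℕ,
    ∫ ω, PTH_R t K m ω * PTH_R t K n ω ∂μ = ∫ ω, PTH_R t K (m + n) ω ∂μ := by
  intro m
  induction m with
  | zero =>
    intro n
    simp_rw [PTH_zero_mul t K n, Nat.zero_add]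
  | succ m ih =>
    intro n
    rw [PTH_shift t K μ hi hp hK m n, ih (n + 1)]
    have e : m + (n + 1) = m + 1 + n := by omega
    rw [e]

theorem PTH_sq (hi : ∀ s, Function.Involutive (t s)) (hp : ∀ s, MeasurePreserving (t s) μ μ)
    (hK : MeasurableSet K) (n : ℕ) :
    (∫ ω, PTH_R t K n ω ∂μ) ^ 2 ≤ ∫ ω, PTH_R t K (n + n) ω ∂μ := by
  have ht : ∀ s, Measurable (t s) := fun s => (hp s).measurable
  rw [← PTH_mul t K μ hi hp hK n n]
  set c := ∫ ω, PTH_R t K n ω ∂μ with hc
  have hint : Integrable (PTH_R t K n) μ := PTH_int μ (PTH_R_meas t K ht hK n) (16 ^ n)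
    (fun ω => by rw [abs_of_nonneg (PTH_R_nonneg t K n _)]; exact PTH_R_le t K n _)
  have h2 : Integrable (fun ω => PTH_R t K n ω * PTH_R t K n ω) μ :=
    PTH_int_mul t K μ ht hK n n id id measurable_id measurable_id
  have h3 : 0 ≤ ∫ ω, (PTH_R t K n ω * PTH_R t K n ω - 2 * c * PTH_R t K n ω + c ^ 2) ∂μ := by
    refine integral_nonneg (fun ω => ?_)
    show 0 ≤ PTH_R t K n ω * PTH_R t K n ω - 2 * c * PTH_R t K n ω + c ^ 2
    nlinarith [sq_nonneg (PTH_R t K n ω - c)]
  have h4 : ∫ ω, (PTH_R t K n ω * PTH_R t K n ω - 2 * c * PTH_R t K n ω + c ^ 2) ∂μ =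
      ∫ ω, PTH_R t K n ω * PTH_R t K n ω ∂μ - 2 * c * c + c ^ 2 := by
    have h5 : Integrable (fun ω => 2 * c * PTH_R t K n ω) μ := hint.const_mul (2 * c)
    have h6 : Integrable (fun ω => PTH_R t K n ω * PTH_R t K n ω - 2 * c * PTH_R t K n ω) μ :=
      h2.sub h5
    rw [integral_add h6 (integrable_const _), integral_sub h2 h5, integral_const_mul,
      integral_const]
    simp [hc]
  rw [h4] at h3
  nlinarith

theorem PTH_one (hp : ∀ s, MeasurePreserving (t s) μ μ)
    (hK : MeasurableSet K) (hKc : μ Kᶜ ≤ 1 / 32) : 15 ≤ ∫ ω, PTH_R t K 1 ω ∂μ := by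
  have ht : ∀ s, Measurable (t s) := fun s => (hp s).measurable
  have h0 : ∀ ω, PTH_R t K 1 ω = ∑ s, PTH_R t K 0 (t s ω) * PTH_R t K 0 ω := by
    intro ω
    have h1 : PTH_R t K 1 ω * PTH_R t K 0 ω = ∑ s, PTH_R t K 0 (t s ω) * PTH_R t K 0 ω :=
      PTH_R_succ_mul t K 0 0 ω
    have h2 := PTH_zero_mul t K 1 ω
    rw [← h1, mul_comm]
    exact h2.symm
  simp_rw [h0]
  have hi1 : ∀ s, Integrable (fun ω => PTH_R t K 0 (t s ω) * PTH_R t K 0 ω) μ :=
    fun s => PTH_int_mul t K μ ht hK 0 0 (t s) id (ht s) measurable_id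
  rw [integral_finsetSum _ (fun s _ => hi1 s)]
  have h1 : ∀ s : L, (15 / 16 : ℝ) ≤ ∫ ω, PTH_R t K 0 (t s ω) * PTH_R t K 0 ω ∂μ := by
    intro s
    have h2 : (fun ω => PTH_R t K 0 (t s ω) * PTH_R t K 0 ω) =
        (t s ⁻¹' K ∩ K).indicator (fun _ => (1 : ℝ)) := by
      funext ω
      have h3 : ∀ ω, PTH_R t K 0 ω = if ω ∈ K then 1 else 0 := by
        intro ω
        unfold PTH_R
        show (((if ω ∈ K then 1 else 0 : ℕ)) : ℝ) = _
        split_ifs <;> simp
      rw [h3, h3]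
      by_cases ha : t s ω ∈ K
      · by_cases hb : ω ∈ K
        · rw [Set.indicator_of_mem (show ω ∈ t s ⁻¹' K ∩ K from ⟨ha, hb⟩), if_pos ha, if_pos hb]
          norm_num
        · rw [Set.indicator_of_notMem (fun h => hb h.2), if_neg hb]
          norm_num
      · rw [Set.indicator_of_notMem (fun h => ha h.1), if_neg ha]
        norm_num
    rw [h2, integral_indicator_const _ ((ht s hK).inter hK), smul_eq_mul, mul_one]
    have h5 : μ.real (t s ⁻¹' K ∩ K)ᶜ ≤ 1 / 16 := by
      rw [Set.compl_inter]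
      have h6 : μ.real (t s ⁻¹' K)ᶜ = μ.real Kᶜ := by
        unfold Measure.real
        rw [← Set.preimage_compl, (hp s).measure_preimage hK.compl.nullMeasurableSet]
      have h7 : μ.real Kᶜ ≤ 1 / 32 := by
        unfold Measure.real
        have := ENNReal.toReal_mono (by norm_num) hKc
        rw [ENNReal.toReal_div] at this
        norm_num at this ⊢
        exact this
      calc μ.real ((t s ⁻¹' K)ᶜ ∪ Kᶜ) ≤ μ.real (t s ⁻¹' K)ᶜ + μ.real Kᶜ :=
            measureReal_union_le _ _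
        _ ≤ 1 / 16 := by rw [h6]; linarith
    have h8 := probReal_compl_eq_one_sub (μ := μ) ((ht s hK).inter hK)
    linarith
  calc (15 : ℝ) = ∑ _s : L, (15 / 16 : ℝ) := by
        rw [Finset.sum_const, Finset.card_univ, Fintype.card_fin]
        norm_num
    _ ≤ _ := Finset.sum_le_sum (fun s _ => h1 s)

theorem PTH_pow (hi : ∀ s, Function.Involutive (t s)) (hp : ∀ s, MeasurePreserving (t s) μ μ)
    (hK : MeasurableSet K) (hKc : μ Kᶜ ≤ 1 / 32) : ∀ k : ℕ,
    (15 : ℝ) ^ (2 ^ k) ≤ ∫ ω, PTH_R t K (2 ^ k) ω ∂μ := by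
  intro k
  induction k with
  | zero => simpa using PTH_one t K μ hp hK hKc
  | succ k ih =>
    have h1 := PTH_sq t K μ hi hp hK (2 ^ k)
    have h2 : 2 ^ (k + 1) = 2 ^ k + 2 ^ k := by ring
    rw [h2, pow_add, ← sq]
    exact le_trans (pow_le_pow_left₀ (by positivity) ih 2) h1

end PTH

theorem sPth : SPth := by
  intro Ω _ μ _ t hi hp K hK hKc k
  have ht : ∀ s, Measurable (t s) := fun s => (hp s).measurable
  have h1 := PTH_pow t K μ hi hp hK hKc k
  set n := 2 ^ k with hn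
  set S : Set Ω := {ω | (15 : ℝ) ^ n / 2 ≤ (Np t K n ω : ℝ)} with hS
  have hSm : MeasurableSet S := measurableSet_le measurable_const (PTH_R_meas t K ht hK n)
  have hint : Integrable (PTH_R t K n) μ := PTH_int μ (PTH_R_meas t K ht hK n) (16 ^ n)
    (fun ω => by rw [abs_of_nonneg (PTH_R_nonneg t K n _)]; exact PTH_R_le t K n _)
  have h2 : ∫ ω, PTH_R t K n ω ∂μ ≤
      ∫ ω, ((15 : ℝ) ^ n / 2 + S.indicator (fun _ => (16 : ℝ) ^ n) ω) ∂μ := by
    refine integral_mono hint ((integrable_const _).add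
      ((integrable_const _).indicator hSm)) (fun ω => ?_)
    show PTH_R t K n ω ≤ (15 : ℝ) ^ n / 2 + S.indicator (fun _ => (16 : ℝ) ^ n) ω
    by_cases h : ω ∈ S
    · rw [Set.indicator_of_mem h]
      have := PTH_R_le t K n ω
      have h3 : (0 : ℝ) ≤ 15 ^ n / 2 := by positivity
      linarith
    · rw [Set.indicator_of_notMem h]
      have h3 : ¬ ((15 : ℝ) ^ n / 2 ≤ (Np t K n ω : ℝ)) := h
      push Not at h3
      unfold PTH_R
      linarith
  rw [integral_add (integrable_const _) ((integrable_const _).indicator hSm),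
    integral_indicator_const _ hSm, integral_const] at h2
  simp only [probReal_univ, smul_eq_mul] at h2
  have h4 : (15 : ℝ) ^ n / 2 ≤ μ.real S * 16 ^ n := by linarith
  have h5 : (0 : ℝ) < 16 ^ n := by positivity
  rw [div_pow]
  have h6 : (1 / 2 : ℝ) * (15 ^ n / 16 ^ n) = (15 ^ n / 2) / 16 ^ n := by ring
  rw [h6, div_le_iff₀ h5]
  exact h4

end NU
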