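import Pool.Agent.H71.NU.Stmts

/-!
# NU, module TOG: elementary properties of the involutions
-/

namespace NU

open MeasureTheory MS

theorem TOG_cons_iff (s : L) (l : List L) : Red (s :: l) ↔ (l.head? ≠ some s ∧ Red l) := by
  cases l with
  | nil => simp [Red]
  | cons a l =>
    simp only [Red, List.isChain_cons_cons, List.head?_cons, ne_eq, Option.some.injEq]
    constructor
    · rintro ⟨h1, h2⟩
      exact ⟨fun h => h1 h.symm, h2⟩
    · rintro ⟨h1, h2⟩
      exact ⟨fun h => h1 h.symm, h2⟩

theorem TOG_inv (s : L) : Function.Involutive (tog s) := by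
  intro l
  by_cases hr : Red l
  · by_cases hh : l.head? = some s
    · obtain ⟨l', rfl⟩ : ∃ l', l = s :: l' := by
        cases l with
        | nil => simp at hh
        | cons a l' =>
          simp only [List.head?_cons, Option.some.injEq] at hh
          exact ⟨l', by rw [hh]⟩
      have h1 : tog s (s :: l') = l' := by
        unfold tog
        rw [if_pos hr, if_pos (by simp)]
        rfl
      have h2 := (TOG_cons_iff s l').1 hr
      rw [h1]
      unfold tog
      rw [if_pos h2.2, if_neg h2.1]
    · have h1 : tog s l = s :: l := by
        unfold tog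
        rw [if_pos hr, if_neg hh]
      have h2 : Red (s :: l) := (TOG_cons_iff s l).2 ⟨hh, hr⟩
      rw [h1]
      unfold tog
      rw [if_pos h2, if_pos (by simp)]
      rfl
  · have h1 : tog s l = l := by
      unfold tog
      rw [if_neg hr]
    rw [h1, h1]

theorem sTog : STog := by
  refine ⟨TOG_inv, ?_, ?_, ?_⟩
  · intro s ω
    funext l
    show ω (tog s (tog s l)) = ω l
    rw [TOG_inv s l]
  · intro s
    refine measurable_pi_lambda _ (fun l => ?_)
    exact measurable_pi_apply (tog s l)
  · intro v
    induction v with
    | nil => intro ω _; rfl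
    | cons s l ih =>
      intro ω h
      have h2 := (TOG_cons_iff s l).1 h
      show act T l (T s ω) [] = ω (s :: l)
      rw [ih (T s ω) h2.2]
      show ω (tog s l) = ω (s :: l)
      congr 1
      unfold tog
      rw [if_pos h2.2, if_neg h2.1]

end NU
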